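import Pool.Agent.Lib.MP_49c203_an.C.Cl
import Pool.Agent.Lib.MP_49c203_an.I.Fin

/-!
# MP_49c203_an: 1-quasiconformal homeomorphisms of Hilbert spaces need not be similarities

The problem's own definitions of `L_f`, `l_f`, `H_f` and of a similarity, for arbitrary separable
infinite-dimensional real Hilbert spaces `X`, `Y` (in any universes).

Moreover every bounded linear bijection `T : X → Y` for which `T*T - I` is compact and of norm at most `1/20`
is a uniform limit of 1-quasiconformal homeomorphisms.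
-/

set_option autoImplicit false

open Filter Topology

open scoped RealInnerProductSpace ENNReal

namespace Pool.Agent.Results.MP_49c203_an.NearLinear

universe u v w

section defs

variable {X : Type u} {Y : Type v} [NormedAddCommGroup X] [NormedAddCommGroup Y]

/-- `L_f(x,r) = sup {‖f y - f x‖ : ‖y - x‖ = r}`, a value in `[0,∞]`. -/
noncomputable def L (f : X → Y) (x : X) (r : ℝ) : ℝ≥0∞ :=
  sSup {t : ℝ≥0∞ | ∃ y : X, ‖y - x‖ = r ∧ t = ENNReal.ofReal ‖f y - f x‖}

/-- `l_f(x,r) = inf {‖f y - f x‖ : ‖y - x‖ = r}`. -/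
noncomputable def l (f : X → Y) (x : X) (r : ℝ) : ℝ≥0∞ :=
  sInf {t : ℝ≥0∞ | ∃ y : X, ‖y - x‖ = r ∧ t = ENNReal.ofReal ‖f y - f x‖}

/-- The metric distortion `H_f(x) = limsup_{r → 0+} L_f(x,r) / l_f(x,r)`. -/
noncomputable def H (f : X → Y) (x : X) : ℝ≥0∞ :=
  limsup (fun r : ℝ => L f x r / l f x r) (𝓝[>] 0)

/-- `f` is a similarity. -/
def IsSimilarity (f : X → Y) : Prop :=
  ∃ c : ℝ, 0 < c ∧ ∀ x y : X, ‖f x - f y‖ = c * ‖x - y‖

/-- the working form of `H_f = 1` -/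
def Pinched (f : X → Y) : Prop :=
  ∀ x : X, ∀ ε : ℝ, 0 < ε → ∃ δ : ℝ, 0 < δ ∧ ∀ r : ℝ, 0 < r → r < δ →
    ∃ m : ℝ, 0 < m ∧ ∀ y : X, ‖y - x‖ = r → m ≤ ‖f y - f x‖ ∧ ‖f y - f x‖ ≤ (1 + ε) * m

end defs

theorem H_eq_one {X : Type u} {Y : Type v} [NormedAddCommGroup X] [NormedSpace ℝ X] [Nontrivial X]
    [NormedAddCommGroup Y] (f : X → Y) (h : Pinched f) (x : X) : H f x = 1 := by
  have hT : Tendsto (fun r : ℝ => L f x r / l f x r) (𝓝[>] 0) (𝓝 1) := by
    rw [ENNReal.tendsto_nhds ENNReal.one_ne_top]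
    intro ε' hε'
    obtain ⟨ε, hε, hεε'⟩ : ∃ ε : ℝ, 0 < ε ∧ ENNReal.ofReal ε ≤ ε' := by
      rcases eq_or_ne ε' ⊤ with h1 | h1
      · exact ⟨1, one_pos, by simp [h1]⟩
      · refine ⟨ε'.toReal, ENNReal.toReal_pos hε'.ne' h1, ?_⟩
        rw [ENNReal.ofReal_toReal h1]
    obtain ⟨δ, hδ, hr⟩ := h x ε hε
    have hmem : Set.Ioo (0 : ℝ) δ ∈ 𝓝[>] (0 : ℝ) := Ioo_mem_nhdsGT hδ
    filter_upwards [hmem] with r hr0
    obtain ⟨m, hm, hy⟩ := hr r hr0.1 hr0.2
    obtain ⟨y0, hy0⟩ : ∃ y0 : X, ‖y0 - x‖ = r := by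
      obtain ⟨y0, hy0⟩ : (Metric.sphere x r).Nonempty := NormedSpace.sphere_nonempty.mpr hr0.1.le
      exact ⟨y0, by rwa [mem_sphere_iff_norm] at hy0⟩
    have hmemS : ENNReal.ofReal ‖f y0 - f x‖ ∈
        {t : ℝ≥0∞ | ∃ y : X, ‖y - x‖ = r ∧ t = ENNReal.ofReal ‖f y - f x‖} := ⟨y0, hy0, rfl⟩
    have hIle : l f x r ≤ L f x r := (sInf_le hmemS).trans (le_sSup hmemS)
    have hIge : ENNReal.ofReal m ≤ l f x r := by
      refine le_sInf ?_
      rintro _ ⟨y, hyr, rfl⟩
      exact ENNReal.ofReal_le_ofReal (hy y hyr).1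
    have hSle : L f x r ≤ ENNReal.ofReal ((1 + ε) * m) := by
      refine sSup_le ?_
      rintro _ ⟨y, hyr, rfl⟩
      exact ENNReal.ofReal_le_ofReal (hy y hyr).2
    have hI0 : l f x r ≠ 0 := by
      intro h0
      rw [h0] at hIge
      have : 0 < ENNReal.ofReal m := ENNReal.ofReal_pos.mpr hm
      exact absurd (lt_of_lt_of_le this hIge) (lt_irrefl _)
    have hItop : l f x r ≠ ⊤ := by
      intro h0
      rw [h0] at hIle
      have := lt_of_le_of_lt (hIle.trans hSle) ENNReal.ofReal_lt_top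
      exact lt_irrefl _ this
    constructor
    · calc 1 - ε' ≤ 1 := tsub_le_self
        _ = l f x r / l f x r := (ENNReal.div_self hI0 hItop).symm
        _ ≤ L f x r / l f x r := ENNReal.div_le_div_right hIle _
    · calc L f x r / l f x r ≤ ENNReal.ofReal ((1 + ε) * m) / ENNReal.ofReal m :=
            ENNReal.div_le_div hSle hIge
        _ = ENNReal.ofReal (1 + ε) := by
            rw [ENNReal.ofReal_mul (by positivity), mul_div_assoc,
              ENNReal.div_self (ENNReal.ofReal_pos.mpr hm).ne' ENNReal.ofReal_ne_top, mul_one]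
        _ = 1 + ENNReal.ofReal ε := by
            rw [ENNReal.ofReal_add zero_le_one hε.le, ENNReal.ofReal_one]
        _ ≤ 1 + ε' := by gcongr
  exact hT.limsup_eq

section core

open QC49

/-- the potential of a form of norm `≤ 1/20` -/
theorem pot_small (K : HH →L[ℝ] HH) (hK : ‖K‖ ≤ 1 / 20) : Pot (qf K) (1 / 20) (1 / 400) := by
  intro m u hu
  have : ∀ b, (max 0 (|qf K (u b)| - 1 / 20)) ^ 2 = 0 := by
    intro b
    have h2 : |qf K (u b)| ≤ 1 / 20 := by
      unfold qf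
      calc |⟪K (u b), u b⟫| ≤ ‖K (u b)‖ * ‖u b‖ := abs_real_inner_le_norm _ _
        _ ≤ (‖K‖ * ‖u b‖) * ‖u b‖ := by
          gcongr
          exact K.le_opNorm _
        _ = ‖K‖ := by rw [hu.1 b]; ring
        _ ≤ 1 / 20 := hK
    rw [max_eq_left (by linarith)]
    norm_num
  rw [Finset.sum_congr rfl (fun b _ => this b)]
  simp

theorem inv_start (T : HH →L[ℝ] HH) (K : HH →L[ℝ] HH) (hKc : IsCompactOperator K) (hK : ‖K‖ ≤ 1 / 20)
    (hT : ∀ u v, ⟪T u, T v⟫ = ⟪u, v⟫ + ⟪K u, v⟫) :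
    Inv 0 ⟨fun x => T x, fun _ => T, fun _ => 1, fun _ => K, fun _ => 1⟩ := by
  refine ⟨?_, ?_, ?_, ?_, ?_, ?_, ?_, ?_, ?_, ?_, ?_, ?_, ?_⟩
  · intro x; exact T.hasFDerivAt
  · exact continuous_const
  · exact continuous_const
  · intro x; exact one_pos
  · exact continuous_const
  · intro x u v
    show ⟪K u, v⟫ = ⟪u, K v⟫
    have h1 := hT u v
    have h2 := hT v u
    rw [real_inner_comm (T u) (T v), real_inner_comm u v] at h2
    rw [real_inner_comm (K v) u]
    linarith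
  · intro x; exact hKc
  · intro x u
    show ‖T u‖ ^ 2 = (1 : ℝ) ^ 2 * (‖u‖ ^ 2 + ⟪K u, u⟫)
    rw [← real_inner_self_eq_norm_sq, hT, real_inner_self_eq_norm_sq]; ring
  · intro x
    show Pot (qf K) (Wv 0) (1 / 400)
    have : Wv 0 = 1 / 20 := by simp [Wv]
    rw [this]
    exact pot_small K hK
  · intro x; exact one_pos
  · intro x y
    show (1 : ℝ) ≤ 1 + ‖x - y‖
    have := norm_nonneg (x - y)
    linarith
  · intro x
    show (1 : ℝ) ≤ (1 / 2) ^ 0
    simp
  · intro x y _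
    show ‖T - T‖ ≤ av 0 * 1
    rw [sub_self, norm_zero]
    have := av_pos 0
    linarith

/-- the theorem in `ℓ²`, at distance `≤ 2` of `T` -/
theorem in_ell2 (T : HH ≃L[ℝ] HH) (K : HH →L[ℝ] HH) (hKc : IsCompactOperator K) (hK : ‖K‖ ≤ 1 / 20)
    (hT : ∀ u v, ⟪T u, T v⟫ = ⟪u, v⟫ + ⟪K u, v⟫) :
    ∃ f : HH ≃ₜ HH, Pinched f ∧ ∀ x, ‖f x - T x‖ ≤ 2 := by
  obtain ⟨s, hs0, hI, hR⟩ := dep_choice Inv Rel _ (inv_start (T : HH →L[ℝ] HH) K hKc hK hT)
    (fun k a ha => step core k a ha)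
  choose h hf hl hd hr hP using hR
  have hl4 : ∀ k x y, ‖(h k y - h k x) - (y - x)‖ ≤ (1 / 4) * ‖y - x‖ := by
    intro k x y
    refine (hl k x y).trans ?_
    have := av_le k
    have h3 : 3 * av k ≤ 1 / 4 := by
      norm_num at this ⊢
      linarith
    gcongr
  obtain ⟨g, hg, hgd, e, he⟩ := exists_limit h (fun k => (s k).rho) hl4 (fun k => (hI k).hr)
    (fun k => (hI k).hrL) hr (fun x => by simpa using (hI 0).hr2 x) hd
  have hfk : ∀ k y, T (g 0 y) = (s k).f (g k y) := by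
    intro k
    induction k with
    | zero => intro y; rw [hs0]; rfl
    | succ k ih => intro y; rw [ih, hf, hg]
  refine ⟨e.trans T.toHomeomorph, ?_, ?_⟩
  · intro x
    have hfun : ∀ y, (e.trans T.toHomeomorph) y = T (g 0 y) := by
      intro y
      show T (e y) = _
      rw [he]
    simp only [hfun]
    have hp := pinch (fun y => T (g 0 y)) x (fun k => (s k).f) g h (fun k => (s k).D) (fun k => (s k).K)
      (fun k => (s k).mu) av (fun k => (s k).rho) hfk hg hgd hl (fun k => (hI k).hr) (fun k => (hI k).hrL)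
      (fun k => (hI k).hr2) ?_ (fun k => (hI k).hD) (fun k => (av_pos k).le) (fun k => (hI k).hm) av_tendsto
      (K_tendsto s hI h hP (fun k => g k x) (fun k => hg k x))
    · intro ε hε
      obtain ⟨δ, hδ, hr⟩ := hp ε hε
      refine ⟨δ, hδ, fun r h1 h2 => ?_⟩
      obtain ⟨m, hm, hy⟩ := hr r h1 h2
      refine ⟨m, hm, fun y hyr => ?_⟩
      have := hy y (by rw [mem_sphere_iff_norm]; exact hyr)
      rwa [dist_eq_norm] at this
    · intro k x y hy
      have h0 := (hI k).hr x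
      exact taylor_ball (s k).f (s k).D (hI k).hf x (4 * (s k).rho x) (av k * (s k).mu x) (by positivity)
        (fun y hy => (hI k).hT x y hy) y hy
  · intro x
    have hTn : ∀ z : HH, ‖T z‖ ≤ 2 * ‖z‖ := by
      intro z
      have h1 : ‖T z‖ ^ 2 = ‖z‖ ^ 2 + ⟪K z, z⟫ := by
        rw [← real_inner_self_eq_norm_sq, hT, real_inner_self_eq_norm_sq]
      have h2 : ⟪K z, z⟫ ≤ ‖z‖ ^ 2 := by
        calc ⟪K z, z⟫ ≤ |⟪K z, z⟫| := le_abs_self _
          _ ≤ ‖K z‖ * ‖z‖ := abs_real_inner_le_norm _ _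
          _ ≤ (‖K‖ * ‖z‖) * ‖z‖ := by
            gcongr
            exact K.le_opNorm _
          _ ≤ (1 * ‖z‖) * ‖z‖ := by
            gcongr
            linarith
          _ = ‖z‖ ^ 2 := by ring
      have h3 : 0 ≤ ‖z‖ := norm_nonneg z
      have h4 : 0 ≤ ‖T z‖ := norm_nonneg _
      nlinarith
    have hfun : (e.trans T.toHomeomorph) x = T (g 0 x) := by
      show T (e x) = _
      rw [he]
    rw [hfun, ← map_sub]
    refine (hTn _).trans ?_
    have h1 := hgd 0 x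
    have h2 := (hI 0).hr2 x
    norm_num at h1 h2
    have h3 := (hI 0).hr x
    linarith

end core

/-! ### transfer to other spaces and scaling -/

section transfer

variable {X : Type u} {Y : Type v} [NormedAddCommGroup X] [NormedAddCommGroup Y] [NormedSpace ℝ X]
  [NormedSpace ℝ Y]

theorem Pinched.scale {f : X → Y} (hf : Pinched f) {s : ℝ} (hs : 0 < s) :
    Pinched (fun x => s • f (s⁻¹ • x)) := by
  intro x ε hε
  obtain ⟨δ, hδ, h⟩ := hf (s⁻¹ • x) ε hε
  refine ⟨s * δ, by positivity, fun r hr0 hr => ?_⟩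
  have hs' : 0 < s⁻¹ := inv_pos.mpr hs
  obtain ⟨m, hm, hy⟩ := h (s⁻¹ * r) (by positivity) (by
    rw [inv_mul_lt_iff₀ hs]; exact hr)
  refine ⟨s * m, by positivity, fun y hyr => ?_⟩
  have h1 : ‖s⁻¹ • y - s⁻¹ • x‖ = s⁻¹ * r := by
    rw [← smul_sub, norm_smul, Real.norm_of_nonneg hs'.le, hyr]
  obtain ⟨h2, h3⟩ := hy (s⁻¹ • y) h1
  have h4 : ‖s • f (s⁻¹ • y) - s • f (s⁻¹ • x)‖ = s * ‖f (s⁻¹ • y) - f (s⁻¹ • x)‖ := by
    rw [← smul_sub, norm_smul, Real.norm_of_nonneg hs.le]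
  show s * m ≤ ‖s • f (s⁻¹ • y) - s • f (s⁻¹ • x)‖ ∧ ‖s • f (s⁻¹ • y) - s • f (s⁻¹ • x)‖ ≤ (1 + ε) * (s * m)
  rw [h4]
  constructor
  · exact mul_le_mul_of_nonneg_left h2 hs.le
  · calc s * ‖f (s⁻¹ • y) - f (s⁻¹ • x)‖ ≤ s * ((1 + ε) * m) := mul_le_mul_of_nonneg_left h3 hs.le
      _ = (1 + ε) * (s * m) := by ring

theorem Pinched.isom {X' : Type*} {Y' : Type*} [NormedAddCommGroup X'] [NormedAddCommGroup Y']
    [NormedSpace ℝ X'] [NormedSpace ℝ Y'] {f : X → Y} (hf : Pinched f) (a : X' ≃ₗᵢ[ℝ] X) (b : Y ≃ₗᵢ[ℝ] Y') :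
    Pinched (fun x => b (f (a x))) := by
  intro x ε hε
  obtain ⟨δ, hδ, h⟩ := hf (a x) ε hε
  refine ⟨δ, hδ, fun r hr0 hr => ?_⟩
  obtain ⟨m, hm, hy⟩ := h r hr0 hr
  refine ⟨m, hm, fun y hyr => ?_⟩
  have h1 : ‖a y - a x‖ = r := by rw [← map_sub, a.norm_map, hyr]
  have h2 : ‖b (f (a y)) - b (f (a x))‖ = ‖f (a y) - f (a x)‖ := by rw [← map_sub, b.norm_map]
  show m ≤ ‖b (f (a y)) - b (f (a x))‖ ∧ ‖b (f (a y)) - b (f (a x))‖ ≤ (1 + ε) * m
  rw [h2]
  exact hy (a y) h1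

end transfer


/-! ### identification of separable infinite-dimensional Hilbert spaces with `ℓ²` -/

theorem exists_isom (X : Type u) [NormedAddCommGroup X] [InnerProductSpace ℝ X] [CompleteSpace X]
    [TopologicalSpace.SeparableSpace X] (hX : ¬ FiniteDimensional ℝ X) : Nonempty (X ≃ₗᵢ[ℝ] QC49.HH) := by
  obtain ⟨w, b, hb⟩ := exists_hilbertBasis ℝ X
  have hcount : Countable w := by
    have hdisj : (Set.univ : Set w).PairwiseDisjoint (fun i => Metric.ball (b i) (1 / 2)) := by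
      intro i _ j _ hij
      rw [Function.onFun, Set.disjoint_left]
      intro z hz1 hz2
      have h1 : dist (b i) (b j) < 1 := by
        calc dist (b i) (b j) ≤ dist (b i) z + dist z (b j) := dist_triangle _ _ _
          _ < 1 / 2 + 1 / 2 := by
            refine add_lt_add ?_ ?_
            · rw [dist_comm]; exact hz1
            · exact hz2
          _ = 1 := by norm_num
      have h2 : ‖b i - b j‖ ^ 2 = 2 := by
        rw [norm_sub_sq_real, b.orthonormal.1, b.orthonormal.1, b.orthonormal.2 hij]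
        norm_num
      rw [dist_eq_norm] at h1
      nlinarith [norm_nonneg (b i - b j)]
    have := hdisj.countable_of_isOpen (fun i _ => Metric.isOpen_ball)
      (fun i _ => ⟨b i, Metric.mem_ball_self (by norm_num)⟩)
    exact Set.countable_univ_iff.mp this
  have hinf : Infinite w := by
    by_contra h
    rw [not_infinite_iff_finite] at h
    have := Fintype.ofFinite w
    exact hX b.toOrthonormalBasis.toBasis.finiteDimensional_of_finite
  obtain ⟨e⟩ : Nonempty (ℕ ≃ w) := nonempty_equiv_of_countable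
  have ho : Orthonormal ℝ (fun n => b (e n)) := b.orthonormal.comp _ e.injective
  have hs : ⊤ ≤ (Submodule.span ℝ (Set.range (fun n => b (e n)))).topologicalClosure := by
    have : Set.range (fun n => b (e n)) = Set.range b := by
      exact e.surjective.range_comp b
    rw [this, b.dense_span]
  exact ⟨(HilbertBasis.mk ho hs).repr⟩

/-! ### similarities -/

theorem IsSimilarity.of_near {X : Type u} {Y : Type v} [NormedAddCommGroup X] [NormedSpace ℝ X]
    [NormedAddCommGroup Y] [NormedSpace ℝ Y] (f : X → Y) (T : X ≃L[ℝ] Y) (ε : ℝ) (hfT : ∀ x, ‖f x - T x‖ ≤ ε)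
    (hf : IsSimilarity f) : IsSimilarity T := by
  obtain ⟨c, hc, h⟩ := hf
  refine ⟨c, hc, ?_⟩
  have key : ∀ z : X, ‖T z‖ = c * ‖z‖ := by
    intro z
    have h1 : ∀ t : ℝ, 0 < t → t * |‖T z‖ - c * ‖z‖| ≤ 2 * ε := by
      intro t ht
      have e1 : ‖T (t • z)‖ = t * ‖T z‖ := by
        rw [map_smul, norm_smul, Real.norm_of_nonneg ht.le]
      have e2 : ‖f (t • z) - f 0‖ = t * (c * ‖z‖) := by
        rw [h, sub_zero, norm_smul, Real.norm_of_nonneg ht.le]; ring
      have e3 : |‖T (t • z)‖ - ‖f (t • z) - f 0‖| ≤ 2 * ε := by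
        refine (abs_norm_sub_norm_le _ _).trans ?_
        have : T (t • z) - (f (t • z) - f 0) = -(f (t • z) - T (t • z)) + (f 0 - T 0) := by
          rw [map_zero]; abel
        rw [this]
        refine (norm_add_le _ _).trans ?_
        rw [norm_neg]
        have := hfT (t • z)
        have := hfT 0
        linarith
      rw [e1, e2, ← mul_sub, abs_mul, abs_of_pos ht] at e3
      exact e3
    by_contra hne
    have h2 : 0 < |‖T z‖ - c * ‖z‖| := abs_pos.mpr (sub_ne_zero.mpr hne)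
    have hε : 0 ≤ ε := (norm_nonneg _).trans (hfT 0)
    have h3 := h1 ((2 * ε + 1) / |‖T z‖ - c * ‖z‖|) (by positivity)
    rw [div_mul_cancel₀ _ h2.ne'] at h3
    linarith
  intro x y
  rw [← map_sub, key]

/-! ### the linear map `u ↦ u + (1/100) ⟪e₀, u⟫ e₀` -/

section linear

open QC49

/-- the bijection `u ↦ u + (1/100) ⟪e₀, u⟫ e₀` of `ℓ²` -/
noncomputable def T0 : HH ≃L[ℝ] HH :=
  ContinuousLinearEquiv.equivOfInverse A0 (ContinuousLinearMap.id ℝ HH - (1 / 101 : ℝ) • rk1)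
    (fun u => by
      simp only [A0, sub_apply, add_apply, smul_apply,
        ContinuousLinearMap.id_apply, rk1_apply, inner_add_right, inner_smul_right, real_inner_self_eq_norm_sq,
        ee_norm]
      module)
    (fun u => by
      simp only [A0, sub_apply, add_apply, smul_apply,
        ContinuousLinearMap.id_apply, rk1_apply, inner_sub_right, inner_smul_right, real_inner_self_eq_norm_sq,
        ee_norm]
      module)

theorem T0_apply (u : HH) : T0 u = u + (1 / 100 : ℝ) • (⟪ee 0, u⟫ • ee 0) := A0_apply u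

theorem T0_inner (u v : HH) : ⟪T0 u, T0 v⟫ = ⟪u, v⟫ + ⟪K0 u, v⟫ := by
  rw [T0_apply, T0_apply, K0_inner]
  simp only [inner_add_left, inner_add_right, real_inner_smul_left, real_inner_smul_right,
    real_inner_self_eq_norm_sq, ee_norm, real_inner_comm (ee 0) u]
  ring

theorem K0_norm : ‖K0‖ ≤ 1 / 20 := by
  refine ContinuousLinearMap.opNorm_le_bound _ (by norm_num) (fun u => ?_)
  rw [K0_apply, norm_smul, norm_smul, ee_norm, mul_one, Real.norm_eq_abs, Real.norm_eq_abs,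
    abs_of_pos (by norm_num)]
  have := abs_real_inner_le_norm (ee 0) u
  rw [ee_norm, one_mul] at this
  have h2 := norm_nonneg u
  linarith

theorem T0_not : ¬ IsSimilarity T0 := by
  rintro ⟨c, _, h⟩
  have h0 := h (ee 0) 0
  have h1 := h (ee 1) 0
  rw [map_zero, sub_zero, sub_zero, T0_apply, ee_norm, real_inner_self_eq_norm_sq, ee_norm] at h0
  rw [map_zero, sub_zero, sub_zero, T0_apply, ee_norm, ee_inner 0 1 (by norm_num), zero_smul, smul_zero,
    add_zero, ee_norm] at h1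
  have h2 : ee 0 + (1 / 100 : ℝ) • ((1 : ℝ) ^ 2 • ee 0) = (101 / 100 : ℝ) • ee 0 := by module
  rw [h2, norm_smul, ee_norm] at h0
  norm_num at h0
  rw [← h0] at h1
  norm_num at h1

end linear

/-- The approximation theorem. -/
theorem near {X : Type u} {Y : Type v} [NormedAddCommGroup X] [InnerProductSpace ℝ X] [CompleteSpace X]
    [TopologicalSpace.SeparableSpace X] [NormedAddCommGroup Y] [InnerProductSpace ℝ Y] [CompleteSpace Y]
    [TopologicalSpace.SeparableSpace Y] (hX : ¬ FiniteDimensional ℝ X) (hY : ¬ FiniteDimensional ℝ Y)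
    (T : X ≃L[ℝ] Y) (K : X →L[ℝ] X) (hKc : IsCompactOperator K) (hK : ‖K‖ ≤ 1 / 20)
    (hT : ∀ u v, ⟪T u, T v⟫ = ⟪u, v⟫ + ⟪K u, v⟫) (ε : ℝ) (hε : 0 < ε) :
    ∃ f : X ≃ₜ Y, (∀ x, H f x = 1) ∧ ∀ x, ‖f x - T x‖ ≤ ε := by
  obtain ⟨a⟩ := exists_isom X hX
  obtain ⟨b⟩ := exists_isom Y hY
  set T' : QC49.HH ≃L[ℝ] QC49.HH :=
    (a.symm.toContinuousLinearEquiv.trans T).trans b.toContinuousLinearEquiv with hT'
  have hT'a : ∀ u, T' u = b (T (a.symm u)) := fun u => rfl
  set K' : QC49.HH →L[ℝ] QC49.HH :=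
    (a.toContinuousLinearEquiv : X →L[ℝ] QC49.HH).comp
      (K.comp (a.symm.toContinuousLinearEquiv : QC49.HH →L[ℝ] X)) with hK'
  have hK'a : ∀ u, K' u = a (K (a.symm u)) := fun u => rfl
  have hK'c : IsCompactOperator K' := by
    have h1 : IsCompactOperator (K.comp (a.symm.toContinuousLinearEquiv : QC49.HH →L[ℝ] X)) :=
      hKc.comp_clm _
    exact h1.clm_comp _
  have hK'n : ‖K'‖ ≤ 1 / 20 := by
    refine ContinuousLinearMap.opNorm_le_bound _ (by norm_num) (fun u => ?_)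
    rw [hK'a, a.norm_map]
    calc ‖K (a.symm u)‖ ≤ ‖K‖ * ‖a.symm u‖ := K.le_opNorm _
      _ ≤ 1 / 20 * ‖u‖ := by rw [a.symm.norm_map]; gcongr
  have hT'i : ∀ u v, ⟪T' u, T' v⟫ = ⟪u, v⟫ + ⟪K' u, v⟫ := by
    intro u v
    rw [hT'a, hT'a, b.inner_map_map, hT, hK'a, a.symm.inner_map_map]
    congr 1
    have := a.inner_map_map (K (a.symm u)) (a.symm v)
    rw [a.apply_symm_apply] at this
    exact this.symm
  obtain ⟨f, hf, hfT⟩ := in_ell2 T' K' hK'c hK'n hT'i
  set s : ℝ := ε / 2 with hs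
  have hs0 : 0 < s := by positivity
  have hXn : Nontrivial X := by
    by_contra h
    rw [not_nontrivial_iff_subsingleton] at h
    exact hX (Module.Finite.of_surjective (0 : ℝ →ₗ[ℝ] X) (fun x => ⟨0, Subsingleton.elim _ _⟩))
  set F : X ≃ₜ Y := (a.toHomeomorph.trans ((Homeomorph.smulOfNeZero s⁻¹ (inv_ne_zero hs0.ne')).trans
    (f.trans (Homeomorph.smulOfNeZero s hs0.ne')))).trans b.symm.toHomeomorph with hF
  have hFa : ∀ x, F x = b.symm (s • f (s⁻¹ • a x)) := fun x => rfl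
  refine ⟨F, fun x => H_eq_one _ ?_ x, fun x => ?_⟩
  · have h1 := (hf.scale hs0).isom a b.symm
    exact h1
  · have h1 : T x = b.symm (s • T' (s⁻¹ • a x)) := by
      rw [← map_smul T', smul_smul, mul_inv_cancel₀ hs0.ne', one_smul, hT'a, a.symm_apply_apply,
        b.symm_apply_apply]
    rw [hFa, h1, ← map_sub, b.symm.norm_map, ← smul_sub, norm_smul, Real.norm_of_nonneg hs0.le]
    calc s * ‖f (s⁻¹ • a x) - T' (s⁻¹ • a x)‖ ≤ s * 2 := by gcongr; exact hfT _
      _ = ε := by rw [hs]; ring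

/-- **Theorem.** Let `X`, `Y` be separable infinite-dimensional real Hilbert spaces. There is a homeomorphism of `X`
onto `Y` with `H_f(x) = 1` at every `x` which is not a similarity. Moreover, if `T : X → Y` is a bounded linear
bijection and `T*T = I + K` with `K` compact and `‖K‖ ≤ 1/20`, then for every `ε > 0` there is a homeomorphism `f` of
`X` onto `Y` with `H_f(x) = 1` and `‖f x - T x‖ ≤ ε` at every `x`, and `f` is not a similarity unless `T` is one. -/
theorem result {X : Type u} {Y : Type v} [NormedAddCommGroup X] [InnerProductSpace ℝ X] [CompleteSpace X]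
    [TopologicalSpace.SeparableSpace X] [NormedAddCommGroup Y] [InnerProductSpace ℝ Y] [CompleteSpace Y]
    [TopologicalSpace.SeparableSpace Y] (hX : ¬ FiniteDimensional ℝ X) (hY : ¬ FiniteDimensional ℝ Y) :
    (∃ f : X ≃ₜ Y, (∀ x, H f x = 1) ∧ ¬ IsSimilarity f) ∧
    ∀ (T : X ≃L[ℝ] Y) (K : X →L[ℝ] X), IsCompactOperator K → ‖K‖ ≤ 1 / 20 →
      (∀ u v, ⟪T u, T v⟫ = ⟪u, v⟫ + ⟪K u, v⟫) → ∀ ε : ℝ, 0 < ε →
      ∃ f : X ≃ₜ Y, (∀ x, H f x = 1) ∧ (∀ x, ‖f x - T x‖ ≤ ε) ∧ (IsSimilarity f → IsSimilarity T) := by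
  constructor
  · obtain ⟨a⟩ := exists_isom X hX
    obtain ⟨b⟩ := exists_isom Y hY
    obtain ⟨f, hf, hfT⟩ := in_ell2 T0 QC49.K0 QC49.K0_compact K0_norm T0_inner
    have hXn : Nontrivial X := by
      by_contra h
      rw [not_nontrivial_iff_subsingleton] at h
      exact hX (Module.Finite.of_surjective (0 : ℝ →ₗ[ℝ] X) (fun x => ⟨0, Subsingleton.elim _ _⟩))
    set F : X ≃ₜ Y := (a.toHomeomorph.trans f).trans b.symm.toHomeomorph with hF
    have hFa : ∀ x, F x = b.symm (f (a x)) := fun x => rfl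
    refine ⟨F, fun x => H_eq_one _ ?_ x, ?_⟩
    · exact hf.isom a b.symm
    · rintro ⟨c, hc, h⟩
      refine T0_not (IsSimilarity.of_near f T0 2 hfT ⟨c, hc, fun x y => ?_⟩)
      have h1 := h (a.symm x) (a.symm y)
      rw [hFa, hFa, a.apply_symm_apply, a.apply_symm_apply, ← map_sub b.symm, b.symm.norm_map,
        ← map_sub a.symm, a.symm.norm_map] at h1
      exact h1
  · intro T K hKc hK hT ε hε
    obtain ⟨f, hf, hfT⟩ := near hX hY T K hKc hK hT ε hε
    exact ⟨f, hf, hfT, IsSimilarity.of_near f T ε hfT⟩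

end Pool.Agent.Results.MP_49c203_an.NearLinear
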